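import Mathlib
import Pool.Agent.Q109.Circ.Star

/-!
The class of bipartite graphs is described by finitely many forbidden linearly ordered graphs but
not by finitely many forbidden circularly ordered graphs.
-/

set_option autoImplicit false

namespace Pool.Agent.Results.MP_b6cdd3_co.BipartiteCircular

open Q109.Circ

/-- A (finite) linearly ordered graph. -/
structure LinPattern where
  m : ℕ
  order : LinearOrder (Fin m)
  graph : SimpleGraph (Fin m)

/-- The linearly ordered graph `p` is isomorphic to `G[S]` with the restriction of the linear order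
`o`, for some vertex set `S`. -/
def LinPattern.Occurs (p : LinPattern) {V : Type} (G : SimpleGraph V) (o : LinearOrder V) : Prop :=
  ∃ f : p.graph ↪g G, ∀ i j, p.order.lt i j ↔ o.lt (f i) (f j)

/-- A (finite) circularly ordered graph. -/
structure CircPattern where
  m : ℕ
  order : CircularOrder (Fin m)
  graph : SimpleGraph (Fin m)

/-- The circularly ordered graph `p` is isomorphic to `G[S]` with the restriction of the circular
order `o`, for some vertex set `S`. -/
def CircPattern.Occurs (p : CircPattern) {V : Type} (G : SimpleGraph V) (o : CircularOrder V) :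
    Prop :=
  ∃ f : p.graph ↪g G, ∀ i j l, p.order.sbtw i j l ↔ o.sbtw (f i) (f j) (f l)

/-- A property of finite graphs is hereditary if it is closed under (isomorphic copies of) induced
subgraphs. -/
def IsHereditary (P : (V : Type) → SimpleGraph V → Prop) : Prop :=
  ∀ (V W : Type) (G : SimpleGraph V) (H : SimpleGraph W), H.IsIndContained G → P V G → P W H

/-- `P` is described by finitely many forbidden linearly ordered graphs. -/
def DescribedLinearly (P : (V : Type) → SimpleGraph V → Prop) : Prop :=
  ∃ F : Set LinPattern, F.Finite ∧ ∀ (V : Type) (_ : Finite V) (G : SimpleGraph V),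
    P V G ↔ ∃ o : LinearOrder V, ∀ p ∈ F, ¬ p.Occurs G o

/-- `P` is described by finitely many forbidden circularly ordered graphs. -/
def DescribedCircularly (P : (V : Type) → SimpleGraph V → Prop) : Prop :=
  ∃ F : Set CircPattern, F.Finite ∧ ∀ (V : Type) (_ : Finite V) (G : SimpleGraph V),
    P V G ↔ ∃ o : CircularOrder V, ∀ p ∈ F, ¬ p.Occurs G o

/-- The property of being bipartite (2-colourable). -/
def Bipartite (V : Type) (G : SimpleGraph V) : Prop := G.Colorable 2

lemma hereditary : IsHereditary Bipartite := by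
  rintro V W G H ⟨f⟩ hG
  exact hG.of_hom f.toHom

lemma linear : DescribedLinearly Bipartite := by
  classical
  refine ⟨(fun H : SimpleGraph (Fin 3) => (⟨3, inferInstance, H⟩ : LinPattern)) ''
    {H | H.Adj 0 1 ∧ H.Adj 1 2}, (Set.toFinite _).image _, ?_⟩
  intro V hV G
  constructor
  · rintro ⟨c⟩
    have := Fintype.ofFinite V
    let e : V ≃ Fin (Fintype.card V) := Fintype.equivFin V
    let g : V → ℕ := fun v => (c v).val * Fintype.card V + (e v).val
    have hg : Function.Injective g := by
      intro v w h
      have h1 := (e v).2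
      have h2 := (e w).2
      have h3 := (c v).2
      have h4 := (c w).2
      have hvw : (e v).val = (e w).val := by
        simp only [g] at h
        obtain h5 | h5 : (c v).val = 0 ∨ (c v).val = 1 := by omega
        · obtain h6 | h6 : (c w).val = 0 ∨ (c w).val = 1 := by omega
          · rw [h5, h6] at h; omega
          · rw [h5, h6] at h; omega
        · obtain h6 | h6 : (c w).val = 0 ∨ (c w).val = 1 := by omega
          · rw [h5, h6] at h; omega
          · rw [h5, h6] at h; omega
      exact e.injective (Fin.ext hvw)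
    have hlt : ∀ v w, g v < g w → (c v).val ≤ (c w).val := by
      intro v w h
      have h1 := (e v).2
      have h2 := (e w).2
      have h3 := (c v).2
      have h4 := (c w).2
      simp only [g] at h
      obtain h5 | h5 : (c v).val = 0 ∨ (c v).val = 1 := by omega
      · omega
      · obtain h6 | h6 : (c w).val = 0 ∨ (c w).val = 1 := by omega
        · rw [h5, h6] at h; omega
        · omega
    refine ⟨LinearOrder.lift' g hg, ?_⟩
    rintro p ⟨H, ⟨h01, h12⟩, rfl⟩ ⟨f, hf⟩
    have k1 : g (f 0) < g (f 1) := (hf 0 1).1 (show (0 : Fin 3) < 1 by decide)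
    have k2 : g (f 1) < g (f 2) := (hf 1 2).1 (show (1 : Fin 3) < 2 by decide)
    have a1 := c.valid (f.map_adj_iff.2 h01)
    have a2 := c.valid (f.map_adj_iff.2 h12)
    have l1 := hlt _ _ k1
    have l2 := hlt _ _ k2
    have b0 := (c (f 0)).2
    have b1 := (c (f 1)).2
    have b2 := (c (f 2)).2
    have n1 : (c (f 0)).val ≠ (c (f 1)).val := fun h => a1 (Fin.ext h)
    have n2 : (c (f 1)).val ≠ (c (f 2)).val := fun h => a2 (Fin.ext h)
    omega
  · rintro ⟨o, ho⟩
    refine ⟨SimpleGraph.Coloring.mk
      (fun v => if ∃ u, o.lt u v ∧ G.Adj u v then (1 : Fin 2) else 0) ?_⟩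
    have key : ∀ u v, o.lt u v → G.Adj u v →
        (if ∃ w, o.lt w u ∧ G.Adj w u then (1 : Fin 2) else 0) ≠
        (if ∃ w, o.lt w v ∧ G.Adj w v then (1 : Fin 2) else 0) := by
      intro u v huv hadj
      have hv1 : (if ∃ w, o.lt w v ∧ G.Adj w v then (1 : Fin 2) else 0) = 1 :=
        if_pos ⟨u, huv, hadj⟩
      rw [hv1]
      by_cases h : ∃ w, o.lt w u ∧ G.Adj w u
      · exfalso
        obtain ⟨w, hwu, hwadj⟩ := h
        have hwv : o.lt w v := lt_trans hwu huv
        have ne1 : w ≠ u := hwadj.ne
        have ne2 : u ≠ v := hadj.ne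
        have ne3 : w ≠ v := by
          rintro rfl
          exact lt_irrefl _ hwv
        have hinj : Function.Injective ![w, u, v] := by
          intro i j
          fin_cases i <;> fin_cases j <;>
            simp [ne1, ne2, ne3, ne1.symm, ne2.symm, ne3.symm]
        have nwv : ¬ o.lt v w := fun h => lt_asymm h hwv
        have nwu : ¬ o.lt u w := fun h => lt_asymm h hwu
        have nuv : ¬ o.lt v u := fun h => lt_asymm h huv
        refine ho ⟨3, inferInstance, G.comap ![w, u, v]⟩ ⟨_, ⟨hwadj, hadj⟩, rfl⟩
          ⟨⟨⟨![w, u, v], hinj⟩, Iff.rfl⟩, ?_⟩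
        intro i j
        change i < j ↔ o.lt (![w, u, v] i) (![w, u, v] j)
        fin_cases i <;> fin_cases j <;>
          simp [hwu, hwv, huv, nwv, nwu, nuv]
      · rw [if_neg h]
        decide
    intro u v hadj
    rcases o.le_total u v with h | h
    · exact key u v (@lt_of_le_of_ne _ o.toPartialOrder _ _ h hadj.ne) hadj
    · exact (key v u (@lt_of_le_of_ne _ o.toPartialOrder _ _ h hadj.ne') hadj.symm).symm

lemma inc_colorable (n : ℕ) : (Inc n).Colorable 2 := by
  refine ⟨SimpleGraph.Coloring.mk (Sum.elim (fun _ => 0) (fun _ => 1)) ?_⟩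
  rintro (x | A) (y | B) h
  · exact absurd h (inc_ll _ _)
  · simp
  · simp
  · exact absurd h (inc_rr _ _)

lemma circular : ¬ DescribedCircularly Bipartite := by
  classical
  rintro ⟨F, hF, hdesc⟩
  -- a bound on the sizes of the patterns
  obtain ⟨k, hk1, hk⟩ : ∃ k : ℕ, 1 ≤ k ∧ ∀ p ∈ F, p.m ≤ k := by
    obtain ⟨k, hk⟩ := (hF.image (fun p => p.m)).bddAbove
    exact ⟨k + 1, by omega, fun p hp => (hk (Set.mem_image_of_mem _ hp)).trans (by omega)⟩
  -- the odd cycle in its star arrangement contains a pattern
  have h1 : ¬ Bipartite _ (starCycle k) := star_not_colorable hk1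
  rw [hdesc _ inferInstance] at h1
  push Not at h1
  obtain ⟨p, hp, f, hf⟩ := h1 (LinearOrder.toCircularOrder (Fin (2 * k + 1)))
  obtain ⟨v0, hv0⟩ : ∃ v0, ∀ i, f i ≠ v0 := by
    by_contra hc
    push Not at hc
    have h2 : Function.Surjective f := hc
    have h3 := Fintype.card_le_of_surjective f h2
    rw [Fintype.card_fin, Fintype.card_fin] at h3
    have := hk p hp
    omega
  -- a bipartite graph all of whose arrangements contain the zigzag
  let N := 2 ^ (k * k) + 1
  obtain ⟨o, ho⟩ := (hdesc _ inferInstance (Inc (4 * N))).1 (inc_colorable _)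
  obtain ⟨pos, hinj, hpos⟩ := exists_pos o
  obtain ⟨a, b, hZ⟩ := exists_zig hk1 (Nat.lt_succ_self _) pos hinj
  apply ho p hp
  have hr : ∀ i, 1 ≤ rot k v0 (f i) ∧ rot k v0 (f i) ≤ 2 * k := fun i =>
    rot_range v0 (f i) (hv0 i)
  refine ⟨⟨⟨fun i => zz k a b (rot k v0 (f i)), ?_⟩, ?_⟩, ?_⟩
  · intro i j hij
    have h2 := zz_inj hZ (hr i).1 (hr i).2 (hr j).1 (hr j).2 hij
    exact f.injective (rot_inj _ _ _ h2)
  · intro i j
    change (Inc (4 * N)).Adj (zz k a b (rot k v0 (f i))) (zz k a b (rot k v0 (f j))) ↔ _
    rw [zz_adj hk1 hZ (hr i).1 (hr i).2 (hr j).1 (hr j).2, ← f.map_adj_iff,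
      rot_adj hk1 v0 _ _ (hv0 i) (hv0 j)]
  · intro i j l
    rw [hf i j l]
    change cyc (f i).val (f j).val (f l).val ↔ o.sbtw (zz k a b (rot k v0 (f i)))
      (zz k a b (rot k v0 (f j))) (zz k a b (rot k v0 (f l)))
    rw [hpos, rot_cyc v0, zz_cyc hZ (hr i).1 (hr i).2 (hr j).1 (hr j).2 (hr l).1 (hr l).2]

/-- The hereditary property of being bipartite is described by finitely many forbidden linearly
ordered graphs but not by any finite set of forbidden circularly ordered graphs. -/
theorem result :
    IsHereditary Bipartite ∧ DescribedLinearly Bipartite ∧ ¬ DescribedCircularly Bipartite :=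
  ⟨hereditary, linear, circular⟩

end Pool.Agent.Results.MP_b6cdd3_co.BipartiteCircular
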